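import Pool.Agent.MWA.StmtsP

/-!
# Row OLQ of block MWA (MP_23468a_al): the one letter law for the types of the letters, period n
-/

set_option autoImplicit false

namespace Pool.Agent.MWA.H99

open Pool.Agent.Helper14_MV Pool.Agent.Helper2_MV Pool.Agent.MVO Pool.Agent.MWL Pool.Agent.MWS

/-- **OLQ** -/
theorem olq (one : Pool.Agent.MVO.OneStmt) (chq : ChqStmt) : OlqStmt := by
  intro n β ap oli ρ σ τ hρ hσ hτ nρ nσ nτ k B B' oB oB' hsup hr x hx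
  have hβψ : β ≤ psi ρ σ τ := fun _ _ h =>
    FIC.le_sup_left (FIC.inf ρ τ) (FIC.inf σ τ) _ _ ⟨hρ _ _ h, hτ _ _ h⟩
  obtain ⟨B'', he, oB'', -, hch⟩ := chq β ρ σ ap hρ hσ nρ nσ k B (asm k B') oB hsup
  have heq := uniq oB'.ok oB''.ok he
  have hJ : Jn (FC.ofFIC ρ) (FC.ofFIC σ) k (ty B x) (ty B'' x) := by
    refine Relation.ReflTransGen.lift (fun C => ty C x) ?_ _ _ hch
    rintro C D ⟨oC, oD, -, h | h⟩
    · exact Or.inl (one.1 ρ k C D x hx oC.ok oD.ok h)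
    · exact Or.inr (one.1 σ k C D x hx oC.ok oD.ok h)
  have hlast : (FC.ofFIC ρ).R k (ty B'' x) (ty B' x) := by
    refine (FC.ofFIC ρ).ext (fun j _ => rfl) (fun j hj => ?_) ((FC.ofFIC ρ).refl k (ty B'' x))
    show (B'' j).count x = (B' j).count x
    rw [heq j hj]
  exact oli.law ρ σ τ (psi ρ σ τ) hρ hσ hτ hβψ nρ nσ nτ
    (fun k a b h h' => FIC.le_sup_left (FIC.inf ρ τ) (FIC.inf σ τ) _ _ ⟨h, h'⟩)
    (fun k a b h h' => FIC.le_sup_right (FIC.inf ρ τ) (FIC.inf σ τ) _ _ ⟨h, h'⟩)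
    k (ty B x) (ty B' x) (one.1 τ k B B' x hx oB.ok oB'.ok hr) (hJ.tail (Or.inl hlast))

end Pool.Agent.MWA.H99
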